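import Pool.Agent.E8helper78.FL.Stm2

/-!
A list of roots that is triangular for the form has a noncrossing product, and is a reduced word
(piece `S_LNC` of the project FL).
-/

set_option autoImplicit false

open scoped RealInnerProductSpace NNReal

namespace Pool.Agent.E8helper13.FL

open Pool.Agent.E8helper78.FL

variable {V : Type} [NormedAddCommGroup V] [InnerProductSpace ℝ V]

/-! ### words -/

theorem pr_reverse (L : List V) : pr L.reverse = (pr L)⁻¹ := by
  induction L with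
  | nil => simp
  | cons a L ih =>
    rw [List.reverse_cons, pr_append, ih, pr_single, pr_cons, mul_inv_rev, rf_inv]

theorem exists_word {Φ : Set V} {w : V ≃ₗᵢ[ℝ] V} (hw : w ∈ Wg Φ) :
    ∃ L : List V, (∀ a ∈ L, a ∈ Φ) ∧ pr L = w := by
  unfold Wg at hw
  induction hw using Subgroup.closure_induction with
  | mem x hx =>
    obtain ⟨b, hb, rfl⟩ := hx
    exact ⟨[b], by simpa using hb, pr_single b⟩
  | one => exact ⟨[], by simp, rfl⟩
  | mul x y _ _ hx hy =>
    obtain ⟨L, h1, rfl⟩ := hx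
    obtain ⟨M, h2, rfl⟩ := hy
    refine ⟨L ++ M, ?_, pr_append L M⟩
    intro a ha
    rcases List.mem_append.1 ha with h | h
    · exact h1 a h
    · exact h2 a h
  | inv x _ hx =>
    obtain ⟨L, h1, rfl⟩ := hx
    exact ⟨L.reverse, fun a ha => h1 a (List.mem_reverse.1 ha), pr_reverse L⟩

theorem ell_le {Φ : Set V} (L : List V) (h : ∀ a ∈ L, a ∈ Φ) : ell Φ (pr L) ≤ L.length :=
  Nat.sInf_le ⟨L, rfl, h, rfl⟩

theorem ell_word {Φ : Set V} {w : V ≃ₗᵢ[ℝ] V} (hw : w ∈ Wg Φ) :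
    ∃ L : List V, L.length = ell Φ w ∧ (∀ a ∈ L, a ∈ Φ) ∧ pr L = w := by
  have hne : {k : ℕ | ∃ l : List V, l.length = k ∧ (∀ a ∈ l, a ∈ Φ) ∧ pr l = w}.Nonempty := by
    obtain ⟨L, h1, h2⟩ := exists_word hw
    exact ⟨L.length, L, rfl, h1, h2⟩
  exact Nat.sInf_mem hne

theorem ell_mul {Φ : Set V} {x y : V ≃ₗᵢ[ℝ] V} (hx : x ∈ Wg Φ) (hy : y ∈ Wg Φ) :
    ell Φ (x * y) ≤ ell Φ x + ell Φ y := by
  obtain ⟨L, h1, h2, rfl⟩ := ell_word hx
  obtain ⟨M, h3, h4, rfl⟩ := ell_word hy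
  rw [← h1, ← h3, ← pr_append, ← List.length_append]
  apply ell_le
  intro a ha
  rcases List.mem_append.1 ha with h | h
  · exact h2 a h
  · exact h4 a h

/-! ### the moved space -/

theorem Mov_pr_le (L : List V) (h : ∀ a ∈ L, ‖a‖ = 1) :
    Mov (pr L) ≤ Submodule.span ℝ {a | a ∈ L} := by
  induction L with
  | nil =>
    intro x hx
    obtain ⟨u, rfl⟩ := mem_Mov.1 hx
    have : u - (pr ([] : List V)) u = 0 := by
      rw [pr_nil]
      exact sub_self u
    rw [this]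
    exact zero_mem _
  | cons a L ih =>
    intro x hx
    obtain ⟨u, rfl⟩ := mem_Mov.1 hx
    rw [pr_cons_apply, rf_apply (h a (by simp))]
    have h1 : u - pr L u ∈ Submodule.span ℝ {b | b ∈ a :: L} := by
      apply Submodule.span_mono _ (ih (fun b hb => h b (by simp [hb])) (mem_Mov.2 ⟨u, rfl⟩))
      intro b hb
      exact List.mem_cons_of_mem a hb
    have h2 : a ∈ Submodule.span ℝ {b | b ∈ a :: L} := Submodule.subset_span (by simp)
    have h3 : u - (pr L u - (2 * ⟪a, pr L u⟫) • a) = (u - pr L u) + (2 * ⟪a, pr L u⟫) • a := by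
      abel
    rw [h3]
    exact add_mem h1 (Submodule.smul_mem _ _ h2)

theorem finrank_le_ell {Φ : Set V} (hΦ : IsRoots Φ) {w : V ≃ₗᵢ[ℝ] V} (hw : w ∈ Wg Φ) :
    Module.finrank ℝ (Mov w) ≤ ell Φ w := by
  classical
  obtain ⟨L, h1, h2, rfl⟩ := ell_word hw
  rw [← h1]
  have h3 : {a | a ∈ L} = ((L.toFinset : Finset V) : Set V) := by
    ext x; simp
  have h4 := Mov_pr_le L (fun a ha => hΦ.unit a (h2 a ha))
  rw [h3] at h4
  have h5 : Module.finrank ℝ (Mov (pr L)) ≤
      Module.finrank ℝ (Submodule.span ℝ ((L.toFinset : Finset V) : Set V)) :=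
    Submodule.finrank_mono h4
  exact (h5.trans (finrank_span_finset_le_card _)).trans (List.toFinset_card_le L)

section step

variable [FiniteDimensional ℝ V] {c : V ≃ₗᵢ[ℝ] V} {E : V →ₗ[ℝ] V →ₗ[ℝ] ℝ} (hE : IsE c E)
include hE

/-- one reflection -/
theorem step {w : V ≃ₗᵢ[ℝ] V} (hw : Sub E w) {a : V} (ha : ‖a‖ = 1) (haw : a ∈ Mov w) :
    Mov (rf a * w) = Mov w ⊓ LinearMap.ker (E a) ∧ Sub E (rf a * w) ∧
      Module.finrank ℝ (Mov (rf a * w)) + 1 = Module.finrank ℝ (Mov w) := by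
  obtain ⟨b, hb⟩ := mem_Mov.1 haw
  have hEa : E a a = 1 / 2 := hE.root ha
  have hform : ∀ u, u - (rf a * w) u = (u - w u) + (2 * ⟪a, w u⟫) • a := by
    intro u
    rw [mul_apply', rf_apply ha]
    abel
  have hle : Mov (rf a * w) ≤ Mov w := by
    intro x hx
    obtain ⟨u, rfl⟩ := mem_Mov.1 hx
    rw [hform]
    exact add_mem (mem_Mov.2 ⟨u, rfl⟩) (Submodule.smul_mem _ _ haw)
  have hker : ∀ x ∈ Mov (rf a * w), E a x = 0 := by
    intro x hx
    obtain ⟨u, rfl⟩ := mem_Mov.1 hx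
    rw [hform, map_add, map_smul, smul_eq_mul, hEa]
    have h1 : E a (u - w u) = ⟪b, u - w u⟫ := by
      rw [← hb]
      exact hw b u
    have h2 : ⟪a, w u⟫ = ⟪b, w u⟫ - ⟪b, u⟫ := by
      rw [← hb, inner_sub_left, w.inner_map_map]
    rw [h1, h2, inner_sub_right]
    ring
  have hge : ∀ z ∈ Mov w, ∃ m ∈ Mov (rf a * w), ∃ t : ℝ, z = m + t • a := by
    intro z hz
    obtain ⟨u, rfl⟩ := mem_Mov.1 hz
    refine ⟨u - (rf a * w) u, mem_Mov.2 ⟨u, rfl⟩, -(2 * ⟪a, w u⟫), ?_⟩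
    rw [hform, neg_smul]
    abel
  have hna : a ∉ Mov (rf a * w) := by
    intro h
    have := hker a h
    rw [hEa] at this
    norm_num at this
  refine ⟨?_, ?_, ?_⟩
  · apply le_antisymm
    · intro x hx
      exact ⟨hle hx, LinearMap.mem_ker.2 (hker x hx)⟩
    · rintro z ⟨hz, hz'⟩
      obtain ⟨m, hm, t, rfl⟩ := hge z hz
      have h1 : E a (m + t • a) = 0 := LinearMap.mem_ker.1 hz'
      rw [map_add, map_smul, hker m hm, hEa, smul_eq_mul, zero_add] at h1
      have h2 : t = 0 := by linarith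
      rw [h2, zero_smul, add_zero]
      exact hm
  · intro u u'
    have hz : u' - (rf a * w) u' ∈ Mov (rf a * w) := mem_Mov.2 ⟨u', rfl⟩
    have hEz := hker _ hz
    obtain ⟨u'', h''⟩ := mem_Mov.1 (hle hz)
    rw [hform u, map_add, LinearMap.add_apply, map_smul, LinearMap.smul_apply, hEz, smul_zero,
      add_zero, ← h'']
    exact hw u u''
  · have h1 : Mov w = Mov (rf a * w) ⊔ Submodule.span ℝ {a} := by
      apply le_antisymm
      · intro z hz
        obtain ⟨m, hm, t, rfl⟩ := hge z hz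
        exact add_mem (Submodule.mem_sup_left hm)
          (Submodule.mem_sup_right (Submodule.smul_mem _ _ (Submodule.mem_span_singleton_self a)))
      · apply sup_le hle
        rw [Submodule.span_singleton_le_iff_mem]
        exact haw
    have h2 : Mov (rf a * w) ⊓ Submodule.span ℝ {a} = ⊥ := by
      rw [eq_bot_iff]
      rintro x ⟨hx, hx'⟩
      obtain ⟨t, rfl⟩ := Submodule.mem_span_singleton.1 hx'
      have h3 := hker _ hx
      rw [map_smul, hEa, smul_eq_mul] at h3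
      have h4 : t = 0 := by linarith
      rw [h4, zero_smul]
      exact zero_mem _
    have hane : a ≠ 0 := by
      rintro rfl
      simp at ha
    have h3 := Submodule.finrank_sup_add_finrank_inf_eq (Mov (rf a * w)) (Submodule.span ℝ {a})
    rw [← h1, h2, finrank_bot, finrank_span_singleton hane] at h3
    omega

/-- the reflection length is at most the dimension of the moved space -/
theorem ell_le_finrank (hM : S_MOV) {Φ : Set V} (hΦ : IsRoots Φ) :
    ∀ (k : ℕ) (w : V ≃ₗᵢ[ℝ] V), w ∈ Wg Φ → Sub E w → Module.finrank ℝ (Mov w) = k →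
      ∃ L : List V, L.length = k ∧ (∀ a ∈ L, a ∈ Φ) ∧ pr L = w := by
  intro k
  induction k with
  | zero =>
    intro w _ _ hk
    refine ⟨[], rfl, by simp, ?_⟩
    have h1 : Mov w = ⊥ := Submodule.finrank_eq_zero.1 hk
    rw [pr_nil]
    ext u
    have h2 : u - w u ∈ Mov w := mem_Mov.2 ⟨u, rfl⟩
    rw [h1, Submodule.mem_bot] at h2
    exact sub_eq_zero.1 h2
  | succ k ih =>
    intro w hw hs hk
    have h1 : ∃ a ∈ Φ, a ∈ Mov w := by
      by_contra hcon
      push Not at hcon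
      have h2 := hM V Φ hΦ w hw
      have h3 : {a | a ∈ Φ ∧ a ∈ Mov w} = ∅ := by
        ext a
        constructor
        · rintro ⟨h4, h5⟩
          exact hcon a h4 h5
        · intro h4
          exact absurd h4 (Set.notMem_empty a)
      rw [h3, Submodule.span_empty] at h2
      rw [← h2, finrank_bot] at hk
      omega
    obtain ⟨a, ha, haw⟩ := h1
    obtain ⟨-, h4, h5⟩ := step hE hs (hΦ.unit a ha) haw
    obtain ⟨L, h6, h7, h8⟩ := ih (rf a * w) (mul_mem (rf_mem ha) hw) h4 (by omega)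
    refine ⟨a :: L, by simp [h6], ?_, ?_⟩
    · intro b hb
      rcases List.mem_cons.1 hb with rfl | hb
      · exact ha
      · exact h7 b hb
    · rw [pr_cons, h8, ← mul_assoc, rf_mul, one_mul]

/-- a triangular list of roots -/
theorem list_step {Φ : Set V} (hΦ : IsRoots Φ) : ∀ (l : List V) (w : V ≃ₗᵢ[ℝ] V), Sub E w →
    (∀ a ∈ l, a ∈ Φ) → (∀ a ∈ l, a ∈ Mov w) → l.Pairwise (fun a b => E a b = 0) →
      Sub E ((pr l)⁻¹ * w) ∧
        Module.finrank ℝ (Mov ((pr l)⁻¹ * w)) + l.length = Module.finrank ℝ (Mov w) := by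
  intro l
  induction l with
  | nil =>
    intro w hw _ _ _
    rw [pr_nil, inv_one, one_mul]
    exact ⟨hw, by simp⟩
  | cons x l ih =>
    intro w hw h1 h2 h3
    obtain ⟨h4, h5, h6⟩ := step hE hw (hΦ.unit x (h1 x (by simp))) (h2 x (by simp))
    rw [List.pairwise_cons] at h3
    obtain ⟨h7, h8⟩ := ih (rf x * w) h5 (fun a ha => h1 a (by simp [ha]))
      (fun a ha => by
        rw [h4]
        exact ⟨h2 a (by simp [ha]), LinearMap.mem_ker.2 (h3.1 a ha)⟩) h3.2
    have h9 : (pr (x :: l))⁻¹ * w = (pr l)⁻¹ * (rf x * w) := by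
      rw [pr_cons, mul_inv_rev, rf_inv, mul_assoc]
    rw [h9]
    refine ⟨h7, ?_⟩
    rw [List.length_cons]
    omega

end step

theorem t_LNC (h : S_MOV) : S_LNC := by
  intro V _ _ Φ A B E hB hE l hl hp
  classical
  have hfd : FiniteDimensional ℝ V := by
    refine Module.finite_def.2 ⟨(A ++ B).toFinset, ?_⟩
    rw [← hB.span]
    congr 1
    ext x
    simp
  have hΦ := hB.roots
  have hcW : cox A B ∈ Wg Φ := mul_mem (pr_mem fun a ha => hB.mem a (by simp [ha]))
    (pr_mem fun a ha => hB.mem a (by simp [ha]))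
  have hcS : Sub E (cox A B) := fun u u' => hE u (u' - cox A B u')
  have hcM : ∀ x, x ∈ Mov (cox A B) := fun x => mem_Mov.2 (hE.surj x)
  have hlW : pr l ∈ Wg Φ := pr_mem hl
  obtain ⟨h1, h2⟩ := list_step hE hΦ l (cox A B) hcS hl (fun a _ => hcM a) hp
  have hW : (pr l)⁻¹ * cox A B ∈ Wg Φ := mul_mem (inv_mem hlW) hcW
  have h3 : ell Φ ((pr l)⁻¹ * cox A B) ≤ Module.finrank ℝ (Mov ((pr l)⁻¹ * cox A B)) := by
    obtain ⟨L, e1, e2, e3⟩ := ell_le_finrank hE h hΦ _ _ hW h1 rfl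
    rw [← e1, ← e3]
    exact ell_le L e2
  have h4 : ell Φ (cox A B) ≤ Module.finrank ℝ (Mov (cox A B)) := by
    obtain ⟨L, e1, e2, e3⟩ := ell_le_finrank hE h hΦ _ _ hcW hcS rfl
    calc ell Φ (cox A B) = ell Φ (pr L) := by rw [e3]
      _ ≤ L.length := ell_le L e2
      _ = _ := e1
  have h5 : Module.finrank ℝ (Mov (cox A B)) ≤ ell Φ (cox A B) := finrank_le_ell hΦ hcW
  have h6 : ell Φ (cox A B) ≤ ell Φ (pr l) + ell Φ ((pr l)⁻¹ * cox A B) := by
    have := ell_mul hlW hW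
    rwa [mul_inv_cancel_left] at this
  have h7 : ell Φ (pr l) ≤ l.length := ell_le l hl
  refine ⟨⟨hlW, ?_⟩, ?_⟩ <;> omega

end Pool.Agent.E8helper13.FL
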